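import Mathlib

/-!
# Strong Roman domination: no bound `γ_StR(G) ≤ c n` with `c < 1` holds for connected graphs

Let the hubs be the `0`-`1`-strings `y` of length `k` and let the elements be the triples
`(i, x, t)`, `0 ≤ i ≤ k`, `x` a string of length `k`, `t < N`; the element `(i, x, t)` is joined to
the hubs that agree with `x` in the first `i` places. For every set `W` of hubs at most
`2 * 2 ^ k * N` elements have exactly one neighbour in `W`, by induction on `k`. In a strong Roman
dominating function let `W` be the set of hubs `w` with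
`f w ≥ 1 + ⌈|N(w) ∩ B₀| / 2⌉`; then twice the weight of `f` is at least
`2 * (k + 1) * 2 ^ k * N - 2 * 2 ^ k * N`.
-/

set_option autoImplicit false

namespace Pool.Agent.Results.MP_fc66e6_co.NoLinearBound

open Finset

open Classical in
/-- `f` is a strong Roman dominating function of `G`: its values are at most `⌈Δ / 2⌉ + 1`, and
every vertex `v` with `f v = 0` has a neighbour `w` with `f w ≥ 2` and
`f w ≥ 1 + ⌈|N(w) ∩ B₀| / 2⌉`, where `B₀` is the set of the vertices of value `0`. -/
def IsStRDF {V : Type*} [Fintype V] (G : SimpleGraph V) (f : V → ℕ) : Prop :=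
  (∀ v, f v ≤ (G.maxDegree + 1) / 2 + 1) ∧
    ∀ v, f v = 0 → ∃ w, G.Adj v w ∧ 2 ≤ f w ∧
      1 + ((univ.filter fun u => G.Adj w u ∧ f u = 0).card + 1) / 2 ≤ f w

/-- The strong Roman domination number: the least weight of a strong Roman dominating
function. -/
noncomputable def strongRomanDomNum {V : Type*} [Fintype V] (G : SimpleGraph V) : ℕ :=
  sInf {k : ℕ | ∃ f : V → ℕ, IsStRDF G f ∧ ∑ v, f v = k}

/-- `x` and `y` agree in the first `i` places. -/
def Agree {k : ℕ} (i : ℕ) (x y : Fin k → Bool) : Prop := ∀ j : Fin k, (j : ℕ) < i → y j = x j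

instance {k : ℕ} (i : ℕ) (x y : Fin k → Bool) : Decidable (Agree i x y) := by
  unfold Agree; infer_instance

/-- The number of strings `x` such that exactly one member of `W` agrees with `x` in the first
`i` places. -/
def cnt {k : ℕ} (W : Finset (Fin k → Bool)) (i : ℕ) : ℕ :=
  ∑ x : Fin k → Bool, if (W.filter (Agree i x)).card = 1 then 1 else 0

lemma cnt_empty {k : ℕ} (i : ℕ) : cnt (∅ : Finset (Fin k → Bool)) i = 0 := by
  simp [cnt]

lemma cnt_le {k : ℕ} (W : Finset (Fin k → Bool)) (i : ℕ) : cnt W i ≤ 2 ^ k := by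
  unfold cnt
  calc _ ≤ ∑ x : Fin k → Bool, 1 := Finset.sum_le_sum fun x _ => by split_ifs <;> simp
    _ = 2 ^ k := by simp

/-- The members of `W` that begin with `b`, with this first symbol removed. -/
def sub {k : ℕ} (W : Finset (Fin (k + 1) → Bool)) (b : Bool) : Finset (Fin k → Bool) :=
  univ.filter fun y => (Fin.cons b y : Fin (k + 1) → Bool) ∈ W

lemma agree_cons {k : ℕ} (i : ℕ) (b c : Bool) (x y : Fin k → Bool) :
    Agree (i + 1) (Fin.cons b x : Fin (k + 1) → Bool) (Fin.cons c y) ↔ c = b ∧ Agree i x y := by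
  constructor
  · intro h
    refine ⟨by simpa using h 0 (by simp), fun j hj => by simpa using h j.succ (by simpa using hj)⟩
  · rintro ⟨rfl, h⟩ j hj
    induction j using Fin.cases with
    | zero => simp
    | succ j => simpa using h j (by simpa using hj)

lemma card_filter_cons {k : ℕ} (W : Finset (Fin (k + 1) → Bool)) (i : ℕ) (b : Bool)
    (x : Fin k → Bool) :
    (W.filter (Agree (i + 1) (Fin.cons b x : Fin (k + 1) → Bool))).card =
      ((sub W b).filter (Agree i x)).card := by
  symm
  refine Finset.card_bij (fun y _ => (Fin.cons b y : Fin (k + 1) → Bool)) ?_ ?_ ?_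
  · intro y hy
    rw [mem_filter] at hy ⊢
    exact ⟨by simpa [sub] using hy.1, (agree_cons i b b x y).2 ⟨rfl, hy.2⟩⟩
  · intro y _ z _ h
    exact (Fin.cons_injective2 h).2
  · intro z hz
    rw [mem_filter] at hz
    obtain ⟨c, y, rfl⟩ : ∃ c y, z = (Fin.cons c y : Fin (k + 1) → Bool) :=
      ⟨z 0, Fin.tail z, (Fin.cons_self_tail z).symm⟩
    obtain ⟨rfl, h⟩ := (agree_cons i b c x y).1 hz.2
    exact ⟨y, by rw [mem_filter]; exact ⟨by simpa [sub] using hz.1, h⟩, rfl⟩

lemma cnt_succ {k : ℕ} (W : Finset (Fin (k + 1) → Bool)) (i : ℕ) :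
    cnt W (i + 1) = cnt (sub W false) i + cnt (sub W true) i := by
  unfold cnt
  rw [← (Fin.consEquiv fun _ : Fin (k + 1) => Bool).sum_comp, Fintype.sum_prod_type,
    Fintype.sum_bool, add_comm]
  exact congrArg₂ (· + ·)
    (Finset.sum_congr rfl fun x _ =>
      congrArg (fun n => if n = 1 then 1 else 0) (card_filter_cons W i false x))
    (Finset.sum_congr rfl fun x _ =>
      congrArg (fun n => if n = 1 then 1 else 0) (card_filter_cons W i true x))

lemma card_sub {k : ℕ} (W : Finset (Fin (k + 1) → Bool)) :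
    W.card = (sub W false).card + (sub W true).card := by
  have h : ∀ b, (sub W b).card = (W.filter fun z => z 0 = b).card := by
    intro b
    refine Finset.card_bij (fun y _ => (Fin.cons b y : Fin (k + 1) → Bool)) ?_ ?_ ?_
    · intro y hy
      rw [mem_filter]
      exact ⟨by simpa [sub] using hy, rfl⟩
    · intro y _ z _ h
      exact (Fin.cons_injective2 h).2
    · intro z hz
      rw [mem_filter] at hz
      refine ⟨Fin.tail z, ?_, ?_⟩
      · simp only [sub, mem_filter, mem_univ, true_and]
        rw [← hz.2, Fin.cons_self_tail]; exact hz.1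
      · rw [← hz.2]; exact Fin.cons_self_tail z
  have h1 := Finset.card_filter_add_card_filter_not (s := W) (fun z => z 0 = true)
  have h2 : (W.filter fun z => ¬ z 0 = true) = W.filter fun z => z 0 = false := by
    ext z
    simp
  rw [h2] at h1
  rw [h, h, ← h1, add_comm]

theorem sum_cnt_le : ∀ (k : ℕ) (W : Finset (Fin k → Bool)),
    ∑ i ∈ range (k + 1), cnt W i ≤ 2 * 2 ^ k := by
  intro k
  induction k with
  | zero =>
    intro W
    have := cnt_le W 0
    simp only [zero_add, range_one, sum_singleton]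
    omega
  | succ k ih =>
    intro W
    rw [Finset.sum_range_succ']
    simp only [cnt_succ, Finset.sum_add_distrib]
    by_cases h1 : W.card = 1
    · have h2 := card_sub W
      have h3 : cnt W 0 ≤ 2 ^ (k + 1) := cnt_le W 0
      rcases Nat.eq_zero_or_pos (sub W false).card with h | h
      · rw [Finset.card_eq_zero] at h
        rw [h]
        simp only [cnt_empty, Finset.sum_const_zero, zero_add]
        have := ih (sub W true)
        rw [pow_succ] at *
        omega
      · have h : (sub W true).card = 0 := by omega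
        rw [Finset.card_eq_zero] at h
        rw [h]
        simp only [cnt_empty, Finset.sum_const_zero, add_zero]
        have := ih (sub W false)
        rw [pow_succ] at *
        omega
    · have h0 : cnt W 0 = 0 := by
        unfold cnt
        refine Finset.sum_eq_zero fun x _ => ?_
        have : W.filter (Agree 0 x) = W := by
          rw [Finset.filter_eq_self]
          intro y _ j hj
          omega
        rw [this, if_neg h1]
      have := ih (sub W false)
      have := ih (sub W true)
      rw [h0, pow_succ]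
      omega

/-- Hubs are strings of length `k`; elements are triples `(i, x, t)`. -/
abbrev Vtx (k N : ℕ) : Type := (Fin k → Bool) ⊕ (Fin (k + 1) × (Fin k → Bool) × Fin N)

/-- The element `(i, x, t)` is joined to the hubs that agree with `x` in the first `i` places. -/
def H (k N : ℕ) : SimpleGraph (Vtx k N) where
  Adj
    | .inl y, .inr p => Agree p.1 p.2.1 y
    | .inr p, .inl y => Agree p.1 p.2.1 y
    | _, _ => False
  symm := ⟨by rintro (i | i) (j | j) h <;> exact h⟩
  loopless := ⟨by rintro (i | i) h <;> exact h⟩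

lemma adj_rl {k N : ℕ} (p : Fin (k + 1) × (Fin k → Bool) × Fin N) (y : Fin k → Bool) :
    (H k N).Adj (.inr p) (.inl y) ↔ Agree p.1 p.2.1 y := Iff.rfl

lemma adj_lr {k N : ℕ} (p : Fin (k + 1) × (Fin k → Bool) × Fin N) (y : Fin k → Bool) :
    (H k N).Adj (.inl y) (.inr p) ↔ Agree p.1 p.2.1 y := Iff.rfl

lemma not_adj_rr {k N : ℕ} (p q : Fin (k + 1) × (Fin k → Bool) × Fin N) :
    ¬ (H k N).Adj (.inr p) (.inr q) := fun h => h

lemma connected (k N : ℕ) (hN : 0 < N) : (H k N).Connected := by
  have hub : ∀ y z : Fin k → Bool, (H k N).Reachable (.inl y) (.inl z) := by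
    intro y z
    have h1 : (H k N).Adj (.inl y) (.inr (0, y, ⟨0, hN⟩)) :=
      (adj_lr _ _).2 fun j hj => by simp at hj
    have h2 : (H k N).Adj (.inr (0, y, ⟨0, hN⟩)) (.inl z) :=
      (adj_rl _ _).2 fun j hj => by simp at hj
    exact h1.reachable.trans h2.reachable
  have all : ∀ v : Vtx k N, (H k N).Reachable (.inl fun _ => false) v := by
    rintro (y | p)
    · exact hub _ _
    · have : (H k N).Adj (.inl p.2.1) (.inr p) := (adj_lr _ _).2 fun j _ => rfl
      exact (hub _ _).trans this.reachable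
  have : Nonempty (Vtx k N) := ⟨.inl fun _ => false⟩
  exact ⟨fun u v => (all u).symm.trans (all v)⟩

lemma card_vtx (k N : ℕ) : Fintype.card (Vtx k N) = 2 ^ k * ((k + 1) * N + 1) := by
  simp only [Fintype.card_sum, Fintype.card_prod, Fintype.card_fun, Fintype.card_bool,
    Fintype.card_fin]
  ring

/-- The lower bound for the weight. -/
theorem weight_ge (k N : ℕ) (f : Vtx k N → ℕ) (hf : IsStRDF (H k N) f) :
    k * 2 ^ k * N ≤ ∑ v, f v := by
  classical
  obtain ⟨-, hf⟩ := hf
  -- the good hubs
  set B0 : Finset (Fin (k + 1) × (Fin k → Bool) × Fin N) := univ.filter fun p => f (.inr p) = 0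
    with hB0
  set W : Finset (Fin k → Bool) := univ.filter fun y =>
    1 + ((univ.filter fun u => (H k N).Adj (.inl y) u ∧ f u = 0).card + 1) / 2 ≤ f (.inl y) with hW
  have hub : ∀ y ∈ W, (B0.filter fun p => Agree p.1 p.2.1 y).card ≤ 2 * f (.inl y) := by
    intro y hy
    rw [hW, mem_filter] at hy
    have h1 : (B0.filter fun p => Agree p.1 p.2.1 y).card ≤
        (univ.filter fun u => (H k N).Adj (.inl y) u ∧ f u = 0).card := by
      refine Finset.card_le_card_of_injOn (fun p => Sum.inr p) ?_ ?_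
      · intro p hp
        simp only [hB0, coe_filter, mem_filter, mem_univ, true_and, Set.mem_ofPred_eq] at hp ⊢
        exact ⟨hp.2, hp.1⟩
      · intro p _ q _ h
        exact Sum.inr.inj h
    omega
  have hsum : ∑ p ∈ B0, (W.filter (Agree (p.1 : ℕ) p.2.1)).card ≤ 2 * ∑ y, f (.inl y) := by
    have : ∑ p ∈ B0, (W.filter (Agree (p.1 : ℕ) p.2.1)).card =
        ∑ y ∈ W, (B0.filter fun p => Agree p.1 p.2.1 y).card := by
      simp only [Finset.card_filter]
      rw [Finset.sum_comm]
    rw [this, Finset.mul_sum]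
    calc _ ≤ ∑ y ∈ W, 2 * f (.inl y) := Finset.sum_le_sum hub
      _ ≤ _ := Finset.sum_le_sum_of_subset (subset_univ _)
  -- pointwise bound
  have hpt : ∀ p : Fin (k + 1) × (Fin k → Bool) × Fin N,
      2 ≤ 2 * f (.inr p) + (if f (.inr p) = 0 then (W.filter (Agree (p.1 : ℕ) p.2.1)).card else 0) +
        (if (W.filter (Agree (p.1 : ℕ) p.2.1)).card = 1 then 1 else 0) := by
    intro p
    by_cases h0 : f (.inr p) = 0
    · obtain ⟨w, hw, -, hw2⟩ := hf _ h0
      rcases w with y | q
      · have hy : y ∈ W.filter (Agree (p.1 : ℕ) p.2.1) := by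
          rw [mem_filter, hW, mem_filter]
          exact ⟨⟨mem_univ _, hw2⟩, hw⟩
        have : 1 ≤ (W.filter (Agree (p.1 : ℕ) p.2.1)).card := Finset.card_pos.2 ⟨y, hy⟩
        rw [if_pos h0]
        split_ifs with h1 <;> omega
      · exact absurd hw (not_adj_rr _ _)
    · omega
  have htot := Finset.sum_le_sum fun p (_ : p ∈ (univ : Finset
    (Fin (k + 1) × (Fin k → Bool) × Fin N))) => hpt p
  simp only [Finset.sum_add_distrib, Finset.sum_const, Finset.card_univ, Fintype.card_prod,
    Fintype.card_fun, Fintype.card_bool, Fintype.card_fin, smul_eq_mul, ← Finset.mul_sum] at htot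
  rw [← Finset.sum_filter, ← hB0] at htot
  have huniq : ∑ p : Fin (k + 1) × (Fin k → Bool) × Fin N,
      (if (W.filter (Agree (p.1 : ℕ) p.2.1)).card = 1 then 1 else 0) ≤ N * (2 * 2 ^ k) := by
    rw [Fintype.sum_prod_type]
    simp only [Fintype.sum_prod_type, Finset.sum_const, Finset.card_univ, Fintype.card_fin,
      smul_eq_mul]
    simp only [← Finset.mul_sum]
    refine Nat.mul_le_mul_left _ ?_
    have := sum_cnt_le k W
    rw [Finset.sum_range] at this
    exact this
  have hw : ∑ v, f v = ∑ y, f (.inl y) + ∑ p, f (.inr p) := Fintype.sum_sum_type _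
  rw [hw]
  have e1 : (k + 1) * (2 ^ k * N) * 2 = 2 * (k * 2 ^ k * N) + 2 * (2 ^ k * N) := by ring
  have e2 : N * (2 * 2 ^ k) = 2 * (2 ^ k * N) := by ring
  rw [e1] at htot
  rw [e2] at huniq
  omega

lemma isStRDF_one {V : Type*} [Fintype V] (G : SimpleGraph V) : IsStRDF G fun _ => 1 :=
  ⟨fun v => by show 1 ≤ _; omega, fun v h => absurd h one_ne_zero⟩

theorem strongRomanDomNum_ge (k N : ℕ) : k * 2 ^ k * N ≤ strongRomanDomNum (H k N) := by
  have hne : {m : ℕ | ∃ f : Vtx k N → ℕ, IsStRDF (H k N) f ∧ ∑ v, f v = m}.Nonempty :=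
    ⟨_, fun _ => 1, isStRDF_one _, rfl⟩
  obtain ⟨f, hf, hs⟩ := Nat.sInf_mem hne
  unfold strongRomanDomNum
  rw [← hs]
  exact weight_ge k N f hf

/-- (1) Some connected graph `G` of order `n ≥ 3` has `γ_StR(G) > (6 / 7) n`.
(2) For every real `c < 1` some connected graph `G` of order `n ≥ 3` has `γ_StR(G) > c n`.
(3) For all `k, N ≥ 1` some connected graph of order `2 ^ k ((k + 1) N + 1)` has
`γ_StR(G) ≥ k 2 ^ k N`. -/
theorem result :
    (∃ (V : Type) (_ : Fintype V) (G : SimpleGraph V), G.Connected ∧ 3 ≤ Fintype.card V ∧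
      (6 / 7 : ℝ) * Fintype.card V < strongRomanDomNum G) ∧
    (∀ c : ℝ, c < 1 → ∃ (V : Type) (_ : Fintype V) (G : SimpleGraph V), G.Connected ∧
      3 ≤ Fintype.card V ∧ c * Fintype.card V < strongRomanDomNum G) ∧
    (∀ k N : ℕ, 0 < k → 0 < N → ∃ (V : Type) (_ : Fintype V) (G : SimpleGraph V), G.Connected ∧
      Fintype.card V = 2 ^ k * ((k + 1) * N + 1) ∧ k * 2 ^ k * N ≤ strongRomanDomNum G) := by
  have h3 : ∀ k N : ℕ, 0 < k → 0 < N → ∃ (V : Type) (_ : Fintype V) (G : SimpleGraph V),
      G.Connected ∧ Fintype.card V = 2 ^ k * ((k + 1) * N + 1) ∧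
        k * 2 ^ k * N ≤ strongRomanDomNum G := fun k N _ hN =>
    ⟨Vtx k N, inferInstance, H k N, connected k N hN, card_vtx k N, strongRomanDomNum_ge k N⟩
  have h2 : ∀ c : ℝ, c < 1 → ∃ (V : Type) (_ : Fintype V) (G : SimpleGraph V), G.Connected ∧
      3 ≤ Fintype.card V ∧ c * Fintype.card V < strongRomanDomNum G := by
    intro c hc
    obtain ⟨k, hk⟩ := exists_nat_gt (2 / (1 - c))
    have hc' : 0 < 1 - c := by linarith
    have hk0 : 0 < k + 1 := Nat.succ_pos k
    obtain ⟨V, inst, G, hG, hcard, hge⟩ := h3 (k + 1) 1 hk0 one_pos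
    refine ⟨V, inst, G, hG, ?_, ?_⟩
    · rw [hcard]
      have : 2 ≤ 2 ^ (k + 1) := by
        calc 2 = 2 ^ 1 := rfl
          _ ≤ 2 ^ (k + 1) := Nat.pow_le_pow_right (by norm_num) (by omega)
      nlinarith
    · have h1 : ((k + 1 : ℕ) : ℝ) * 2 ^ (k + 1) * 1 ≤ strongRomanDomNum G := by
        exact_mod_cast hge
      refine lt_of_lt_of_le ?_ h1
      rw [hcard]
      push_cast
      rw [div_lt_iff₀ hc'] at hk
      have h2 : (0 : ℝ) < 2 ^ (k + 1) := by positivity
      have h4 : c * (((k : ℝ) + 1 + 1) * 1 + 1) < (k : ℝ) + 1 := by nlinarith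
      nlinarith
  exact ⟨h2 _ (by norm_num), h2, h3⟩

end Pool.Agent.Results.MP_fc66e6_co.NoLinearBound
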